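import Pool.Agent.Helper90_WAQ.JPoly
import Pool.Agent.Helper90_WAQ.JCon

/-!
CON and DEN for the letter `jj`: near every point of `U` there are points of the domain (with the
same `t` for `j`).
-/

namespace Pool.Agent.WAQ.H90

open Filter Topology Polynomial

/-- local square roots and small nonzero elements -/
structure LocSq (F : Type) [NormedField F] : Prop where
  two : (2 : F) ≠ 0
  cz : CharZero F
  small : ∃ c : F, c ≠ 0 ∧ ‖c‖ < 1
  sq : ∃ C : ℝ, 0 < C ∧ ∃ r0 : ℝ, 0 < r0 ∧ ∀ x : F, ‖x - 1‖ < r0 →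
    ∃ r : F, r ^ 2 = x ∧ ‖r - 1‖ ≤ C * ‖x - 1‖

section loc
variable [Par] {F : Type} [NormedField F]

theorem LocSq.gd (h : LocSq F) : Gd F := by
  have := h.cz
  infer_instance

theorem locSq_of_isLoc {ϖ : ℤ} (h : IsLoc F ϖ) : LocSq F := by
  have h2 := h.two_ne
  refine ⟨h2, h.charZero, ⟨am F ϖ, ?_, ?_⟩, 1 / ‖(2 : F)‖, ?_, ‖(4 : F)‖, ?_, ?_⟩
  · exact norm_pos_iff.1 h.uni
  · rw [h.lt_one]
  · exact div_pos one_pos (norm_pos_iff.2 h2)
  · have : (4 : F) = 2 * 2 := by norm_num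
    rw [this, norm_mul]
    exact mul_pos (norm_pos_iff.2 h2) (norm_pos_iff.2 h2)
  · intro x hx
    obtain ⟨r, hr, hr1⟩ := h.sqrt x hx
    refine ⟨r, hr, ?_⟩
    rw [div_mul_eq_mul_div, one_mul, le_div_iff₀ (norm_pos_iff.2 h2)]
    exact hr1

theorem locSq_of_isRe (h : IsRe F) : LocSq F := by
  have hcz := h.charZero
  obtain ⟨σ, hσ⟩ := h
  have n2 : ‖(2 : F)‖ = 2 := by
    rw [← hσ, map_ofNat]
    simp
  have h2 : (2 : F) ≠ 0 := by
    intro h0; rw [h0, norm_zero] at n2; norm_num at n2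
  refine ⟨h2, hcz, ⟨1 / 2, ?_, ?_⟩, 1, one_pos, 1, one_pos, ?_⟩
  · exact div_ne_zero one_ne_zero h2
  · rw [norm_div, n2, norm_one]; norm_num
  · intro x hx
    have hx' : |σ x - 1| < 1 := by
      rw [← hσ, map_sub, map_one, Real.norm_eq_abs] at hx
      exact hx
    have hx0 : 0 ≤ σ x := by
      have := (abs_lt.1 hx').1
      linarith
    refine ⟨σ.symm (Real.sqrt (σ x)), ?_, ?_⟩
    · apply σ.injective
      rw [map_pow, RingEquiv.apply_symm_apply, Real.sq_sqrt hx0]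
    · rw [one_mul, ← hσ (x - 1), ← hσ, map_sub, map_sub, map_one, RingEquiv.apply_symm_apply,
        Real.norm_eq_abs, Real.norm_eq_abs]
      have hs := Real.sqrt_nonneg (σ x)
      have e : σ x - 1 = (Real.sqrt (σ x) - 1) * (Real.sqrt (σ x) + 1) := by
        have := Real.sq_sqrt hx0
        linear_combination (-1) * this
      rw [e, abs_mul]
      have h1 : 1 ≤ |Real.sqrt (σ x) + 1| := by
        rw [abs_of_nonneg (by linarith)]
        linarith
      nlinarith [abs_nonneg (Real.sqrt (σ x) - 1)]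

omit [Par] in
/-- every neighbourhood of `x0` contains points outside a finite set -/
theorem exists_near (h : LocSq F) {B : Set F} (hB : B.Finite) {x0 : F} {O : Set F}
    (hO : O ∈ 𝓝 x0) : ∃ x ∈ O, x ∉ B := by
  obtain ⟨c, hc0, hc1⟩ := h.small
  have ht : Tendsto (fun n : ℕ => x0 + c ^ n) atTop (𝓝 (x0 + 0)) :=
    tendsto_const_nhds.add (tendsto_pow_atTop_nhds_zero_of_norm_lt_one hc1)
  rw [add_zero] at ht
  have he := ht.eventually hO
  obtain ⟨N, hN⟩ := eventually_atTop.1 he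
  have hinj : Function.Injective (fun n : ℕ => x0 + c ^ (N + n)) := by
    intro a b hab
    simp only [add_right_inj] at hab
    have hn : ‖c‖ ^ (N + a) = ‖c‖ ^ (N + b) := by rw [← norm_pow, ← norm_pow, hab]
    have hst : StrictAnti (fun n : ℕ => ‖c‖ ^ n) :=
      pow_right_strictAnti₀ (norm_pos_iff.2 hc0) hc1
    have := hst.injective hn
    omega
  by_contra hcon
  push Not at hcon
  have hsub : Set.range (fun n : ℕ => x0 + c ^ (N + n)) ⊆ B := by
    rintro _ ⟨n, rfl⟩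
    exact hcon _ (hN _ (Nat.le_add_right _ _))
  exact Set.infinite_range_of_injective hinj (hB.subset hsub)

/-- points of `U` with the same `t` near a given one, avoiding finitely many `x` -/
theorem exists_near_x (h : LocSq F) {z : F × F × F} (hU : OnU z) {V : Set (F × F × F)}
    (hV : V ∈ 𝓝 z) {B : Set F} (hB : B.Finite) :
    ∃ x y : F, (x, z.2.1, y) ∈ V ∧ OnU (x, z.2.1, y) ∧ x ∉ B := by
  obtain ⟨x0, t, y0⟩ := z
  obtain ⟨C, hC, r0, hr0, hsq⟩ := h.sq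
  have hy0 : y0 ≠ 0 := hU.2
  have he : y0 ^ 2 = cub x0 * cub t := hU.1
  have hy2 : 0 < ‖y0‖ := norm_pos_iff.2 hy0
  obtain ⟨ε, hε, hball⟩ := Metric.mem_nhds_iff.1 hV
  -- the function `x ↦ f(x) f(t) / y0 ^ 2 - 1` tends to 0
  have hcont : Continuous (fun x : F => cub x * cub t / y0 ^ 2 - 1) := by
    unfold cub
    fun_prop
  have hlim : Tendsto (fun x : F => ‖cub x * cub t / y0 ^ 2 - 1‖) (𝓝 x0) (𝓝 0) := by
    have := (hcont.norm.tendsto x0)
    rw [← he, div_self (pow_ne_zero 2 hy0), sub_self, norm_zero] at this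
    exact this
  have k1 : ∀ᶠ x in 𝓝 x0, ‖cub x * cub t / y0 ^ 2 - 1‖ < r0 := hlim.eventually (gt_mem_nhds hr0)
  have hη : 0 < min (1 / 2) (ε / (2 * ‖y0‖)) / C :=
    div_pos (lt_min (by norm_num) (div_pos hε (by positivity))) hC
  have k2 : ∀ᶠ x in 𝓝 x0, ‖cub x * cub t / y0 ^ 2 - 1‖ < min (1 / 2) (ε / (2 * ‖y0‖)) / C :=
    hlim.eventually (gt_mem_nhds hη)
  have k3 : ∀ᶠ x in 𝓝 x0, x ∈ Metric.ball x0 ε := Metric.ball_mem_nhds x0 hε
  obtain ⟨x, ⟨⟨hx1, hx2⟩, hx3⟩, hxB⟩ := exists_near h hB ((k1.and k2).and k3)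
  obtain ⟨r, hr, hr1⟩ := hsq _ hx1
  have hr2 : ‖r - 1‖ < min (1 / 2) (ε / (2 * ‖y0‖)) := by
    refine lt_of_le_of_lt hr1 ?_
    rw [lt_div_iff₀ hC] at hx2
    rw [mul_comm]
    exact hx2
  have hr3 : ‖r - 1‖ < 1 / 2 := lt_of_lt_of_le hr2 (min_le_left _ _)
  have hr4 : ‖r - 1‖ < ε / (2 * ‖y0‖) := lt_of_lt_of_le hr2 (min_le_right _ _)
  have hrn : r ≠ 0 := by
    intro h0
    rw [h0, zero_sub, norm_neg, norm_one] at hr3
    norm_num at hr3
  refine ⟨x, r * y0, ?_, ⟨?_, mul_ne_zero hrn hy0⟩, hxB⟩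
  · apply hball
    rw [Metric.mem_ball, Prod.dist_eq, Prod.dist_eq]
    refine max_lt (Metric.mem_ball.1 hx3) (max_lt ?_ ?_)
    · simp only [dist_self]; exact hε
    · simp only
      rw [dist_eq_norm]
      have e1 : r * y0 - y0 = (r - 1) * y0 := by ring
      rw [e1, norm_mul]
      rw [lt_div_iff₀ (by positivity)] at hr4
      nlinarith [norm_nonneg (r - 1)]
  · show (r * y0) ^ 2 = cub x * cub t
    rw [mul_pow, hr]
    exact div_mul_cancel₀ _ (pow_ne_zero 2 hy0)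

omit [Par] in
theorem finite_roots {p : F[X]} (hp : p ≠ 0) : {x : F | p.eval x = 0}.Finite := by
  classical
  have : {x : F | p.eval x = 0} ⊆ (p.roots.toFinset : Set F) := by
    intro x hx
    simp only [Finset.mem_coe, Multiset.mem_toFinset]
    exact (mem_roots hp).2 hx
  exact (Finset.finite_toSet _).subset this

/-- density of the domain of `j` -/
theorem dense_jD (h : LocSq F) {z : F × F × F} (hU : OnU z) {V : Set (F × F × F)}
    (hV : V ∈ 𝓝 z) : ∃ z1 ∈ V, jD z1 := by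
  have := h.gd
  have f := onU_facts hU
  have hP := Pool.Agent.Helper90_WAQ.PJ_ne (ea_ne F) (eb_ne F) (ea_ne_eb F)
    f.2.2.1 f.2.2.2.1 f.2.2.2.2.1
  obtain ⟨x, y, h1, h2, h3⟩ := exists_near_x h hU hV (finite_roots hP)
  exact ⟨_, h1, jD_of_PJ h2 h3⟩

/-- density of the domain of `J` -/
theorem dense_JD (h : LocSq F) {z : F × F × F} (hU : OnU z) {V : Set (F × F × F)}
    (hV : V ∈ 𝓝 z) : ∃ z1 ∈ V, OnU z1 ∧ JD z1 := by
  have := h.gd
  have f := onU_facts hU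
  have hU' := onU_t00f hU
  have f' := onU_facts hU'
  have hc := cont_t00f f'.1 f'.2.2.1
  have hV' : t00f ⁻¹' V ∈ 𝓝 (t00f z) := by
    apply hc.preimage_mem_nhds
    rw [t00f_t00f f.1 f.2.2.1]
    exact hV
  obtain ⟨z1, h1, h2⟩ := dense_jD h hU' hV'
  have f1 := onU_facts h2.1
  refine ⟨t00f z1, h1, onU_t00f h2.1, ?_⟩
  unfold JD
  rw [t00f_t00f f1.1 f1.2.2.1]
  exact h2

/-- DEN for `jj` -/
theorem den_jj (h : LocSq F) (V : Set (F × F × F)) (hV : IsOpen V) (hz : ∃ z ∈ V, OnU z) :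
    ∃ z ∈ V, ∃ z', Step .jj z z' := by
  have := h.gd
  obtain ⟨z, hz, hU⟩ := hz
  obtain ⟨z1, h1, h2, h3⟩ := dense_JD h hU (hV.mem_nhds hz)
  exact ⟨z1, h1, JJf z1, h2, (JD_JJf h2 h3).2.2, h3, rfl⟩

/-- CON for `jj` -/
theorem con_jj [Gd F] (z z' : F × F × F) (h : Step .jj z z')
    (V : Set (F × F × F)) (hV : IsOpen V) (hz : z' ∈ V) :
    ∃ O : Set (F × F × F), IsOpen O ∧ z ∈ O ∧
      ∀ z1 ∈ O, OnU z1 → ∃ z2 ∈ V, Step .jj z1 z2 := by
  obtain ⟨hU, hU', hD, rfl⟩ := h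
  obtain ⟨hc, ho⟩ := JD_cont hU hD
  have h3 := ho.and (hc.eventually (hV.mem_nhds hz))
  obtain ⟨O, hO2, hO, hO1⟩ := eventually_nhds_iff.1 h3
  refine ⟨O, hO, hO1, fun z1 hz1 hU1 => ?_⟩
  obtain ⟨k1, k2⟩ := hO2 z1 hz1
  exact ⟨JJf z1, k2, hU1, (JD_JJf hU1 (k1 hU1)).2.2, k1 hU1, rfl⟩

end loc

end Pool.Agent.WAQ.H90
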