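import Pool.Agent.Helper90_WAQ.JCon

/-!
JNE, JCO: the involution `J` near the exceptional curve.  In the coordinates `(x, t, m)` at the
origin node everything is continuous: `x' = m * xq` with `xq → a - b`.
-/

namespace Pool.Agent.WAQ.H90

open Filter Topology

variable [Par]

section alg
variable {F : Type} [Field F]

def o1 (p : F × F × F) : F := (p.2.1 - ea F) / ((p.1 - ea F) * (p.1 - eb F))
def ww (p : F × F × F) : F := p.1 * (p.2.2 * o1 p)
def ee (p : F × F × F) : F := 1 / (1 - ww p)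
def d2 (p : F × F × F) : F := - eb F * o1 p * ee p
def th2 (p : F × F × F) : F := o1 p * (p.2.1 - eb F)
def a2 (p : F × F × F) : F := (th2 p - d2 p ^ 2) / (1 - p.2.2 * d2 p)
def k2 (p : F × F × F) : F := d2 p - p.2.2 * a2 p
def xq (p : F × F × F) : F :=
  k2 p * (d2 p * k2 p - ea F * eb F * o1 p ^ 2) / (o1 p ^ 2 * (p.1 * p.2.2 ^ 2 * a2 p - eb F))
def tq (p : F × F × F) : F := p.1 * p.2.2 ^ 2 * a2 p + p.1 ^ 2 * p.2.2 * d2 p * k2 p / xq p
def mq (p : F × F × F) : F :=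
  p.1 * o1 p * ((p.2.2 * xq p - ea F) * (p.2.2 * xq p - eb F)) * (tq p - eb F) /
    (xq p * ((tq p - ea F) * (tq p - eb F)))

/-- the coordinates `(x, t, m)` of a point -/
noncomputable def pc (q : F × F × F) : F × F × F := (q.1, q.2.1, mz q)

theorem mz_ne {q : F × F × F} (hU : OnU q) : mz q ≠ 0 := by
  have f := onU_facts hU
  unfold mz
  exact div_ne_zero hU.2 (mul_ne_zero f.1 f.2.2.2.2.2.1)

theorem link_w {q : F × F × F} (hU : OnU q) : jw q = ww (pc q) := by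
  obtain ⟨x, t, y⟩ := q
  obtain ⟨hx, hx1, ht, ht1, ht2, ht3, hx2, hx3⟩ := onU_facts hU
  simp only at hx hx1 ht ht1 ht2 ht3 hx2 hx3
  simp only [jw, ww, o1, pc, mz]
  field_simp

/-- `t = x * m ^ 2 * th2` -/
theorem link_t {q : F × F × F} (hU : OnU q) :
    q.2.1 = q.1 * (mz q) ^ 2 * th2 (pc q) := by
  obtain ⟨x, t, y⟩ := q
  obtain ⟨hx, hx1, ht, ht1, ht2, ht3, hx2, hx3⟩ := onU_facts hU
  have h1 := hU.1
  simp only [cub] at hx hx1 ht ht1 ht2 ht3 hx2 hx3 h1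
  simp only [th2, o1, pc, mz]
  rw [div_pow, h1]
  field_simp

theorem link_d {q : F × F × F} (hU : OnU q) : jd q = q.1 * (mz q) * d2 (pc q) := by
  unfold jd
  rw [link_w hU]
  simp only [d2, ee, ww, pc]
  ring

theorem link_a {q : F × F × F} (hU : OnU q) :
    ja q = q.1 * (mz q) ^ 2 * a2 (pc q) := by
  have hx := (onU_facts hU).1
  have ht := link_t hU
  unfold ja
  rw [link_d hU]
  have e1 : q.1 * q.2.1 - (q.1 * mz q * d2 (pc q)) ^ 2 =
      q.1 * (q.1 * (mz q) ^ 2 * (th2 (pc q) - d2 (pc q) ^ 2)) := by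
    linear_combination q.1 * ht
  have e2 : q.1 - q.1 * mz q * d2 (pc q) = q.1 * (1 - mz q * d2 (pc q)) := by ring
  rw [e1, e2, mul_div_mul_left _ _ hx]
  simp only [a2, pc]
  ring

theorem link_da {q : F × F × F} (hU : OnU q) :
    jd q - ja q = q.1 * mz q * k2 (pc q) := by
  rw [link_d hU, link_a hU]
  simp only [k2, pc]
  ring

theorem link_x {q : F × F × F} (hU : OnU q) : jx q = mz q * xq (pc q) := by
  have hx := (onU_facts hU).1
  have hm := mz_ne hU
  unfold jx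
  rw [link_da hU, link_d hU, link_a hU, link_w hU]
  have e1 : q.1 * mz q * k2 (pc q) *
      (q.1 * mz q * d2 (pc q) * (q.1 * mz q * k2 (pc q)) - ea F * eb F * ww (pc q) ^ 2) =
      (q.1 ^ 3 * mz q ^ 2) *
        (mz q * (k2 (pc q) * (d2 (pc q) * k2 (pc q) - ea F * eb F * o1 (pc q) ^ 2))) := by
    simp only [ww]
    show _ * (_ - ea F * eb F * (q.1 * (mz q * o1 (pc q))) ^ 2) = _
    ring
  have e2 : ww (pc q) ^ 2 * (q.1 * mz q ^ 2 * a2 (pc q) - eb F) * q.1 =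
      (q.1 ^ 3 * mz q ^ 2) * (o1 (pc q) ^ 2 * (q.1 * mz q ^ 2 * a2 (pc q) - eb F)) := by
    simp only [ww]
    show (q.1 * (mz q * o1 (pc q))) ^ 2 * _ * _ = _
    ring
  rw [e1, e2, mul_div_mul_left _ _ (mul_ne_zero (pow_ne_zero 3 hx) (pow_ne_zero 2 hm)),
    mul_div_assoc]
  rfl

theorem link_tt {q : F × F × F} (hU : OnU q) : jt q = tq (pc q) := by
  have hx := (onU_facts hU).1
  have hm := mz_ne hU
  unfold jt
  rw [link_da hU, link_x hU, link_d hU, link_a hU]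
  have e1 : q.1 * mz q * d2 (pc q) * (q.1 * mz q * k2 (pc q)) =
      mz q * (q.1 ^ 2 * mz q * d2 (pc q) * k2 (pc q)) := by ring
  rw [e1, mul_div_mul_left _ _ hm]
  rfl

theorem link_m {q : F × F × F} (hU : OnU q) : mz (jf q) = mq (pc q) := by
  have hx := (onU_facts hU).1
  have hm := mz_ne hU
  show jw q * ((jx q - ea F) * (jx q - eb F)) * (jt q - eb F) /
    (jx q * ((jt q - ea F) * (jt q - eb F))) = _
  rw [link_w hU, link_x hU, link_tt hU]
  have e1 : ww (pc q) * ((mz q * xq (pc q) - ea F) * (mz q * xq (pc q) - eb F)) *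
      (tq (pc q) - eb F) =
      mz q * (q.1 * o1 (pc q) * ((mz q * xq (pc q) - ea F) * (mz q * xq (pc q) - eb F)) *
        (tq (pc q) - eb F)) := by
    simp only [ww]
    show q.1 * (mz q * o1 (pc q)) * _ * _ = _
    ring
  rw [e1, mul_assoc (mz q) (xq (pc q)), mul_div_mul_left _ _ hm]
  rfl

theorem mz_t00f [Gd F] {q : F × F × F} (hU : OnU q) : mz (t00f q) = mz q := by
  obtain ⟨x, t, y⟩ := q
  obtain ⟨hx, hx1, ht, ht1, ht2, ht3, hx2, hx3⟩ := onU_facts hU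
  have ha := ea_ne F
  have hb := eb_ne F
  simp only at hx hx1 ht ht1 ht2 ht3 hx2 hx3
  simp only [mz, t00f]
  have e : (ea F * eb F / x) * ((ea F * eb F / t - ea F) * (ea F * eb F / t - eb F)) =
      (ea F * eb F) ^ 2 * ((t - ea F) * (t - eb F)) / (x * t ^ 2) := by
    field_simp
    ring
  rw [e]
  field_simp

end alg

section top
variable {F : Type} [NormedField F]

theorem cont_all [Gd F] {m1 : F} (hm : m1 ≠ 1) :
    Tendsto (o1 (F := F)) (𝓝 (0, 0, m1)) (𝓝 (-1 / eb F)) ∧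
    Tendsto (ww (F := F)) (𝓝 (0, 0, m1)) (𝓝 0) ∧
    Tendsto (d2 (F := F)) (𝓝 (0, 0, m1)) (𝓝 1) ∧ Tendsto (a2 (F := F)) (𝓝 (0, 0, m1)) (𝓝 0) ∧
    Tendsto (k2 (F := F)) (𝓝 (0, 0, m1)) (𝓝 1) ∧
    Tendsto (xq (F := F)) (𝓝 (0, 0, m1)) (𝓝 (ea F - eb F)) ∧
    Tendsto (tq (F := F)) (𝓝 (0, 0, m1)) (𝓝 0) ∧ Tendsto (mq (F := F)) (𝓝 (0, 0, m1)) (𝓝 0) ∧
    Tendsto (fun p : F × F × F => p.1) (𝓝 (0, 0, m1)) (𝓝 0) ∧
    Tendsto (fun p : F × F × F => p.2.1) (𝓝 (0, 0, m1)) (𝓝 0) ∧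
    Tendsto (fun p : F × F × F => p.2.2) (𝓝 (0, 0, m1)) (𝓝 m1) := by
  have ha := ea_ne F
  have hb := eb_ne F
  have hab := eab_ne F
  have c1 : Tendsto (fun p : F × F × F => p.1) (𝓝 (0, 0, m1)) (𝓝 0) :=
    (continuous_fst.tendsto (0, 0, m1))
  have c2 : Tendsto (fun p : F × F × F => p.2.1) (𝓝 (0, 0, m1)) (𝓝 0) :=
    ((continuous_fst.comp continuous_snd).tendsto (0, 0, m1))
  have c3 : Tendsto (fun p : F × F × F => p.2.2) (𝓝 (0, 0, m1)) (𝓝 m1) :=
    ((continuous_snd.comp continuous_snd).tendsto (0, 0, m1))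
  have co : Tendsto (o1 (F := F)) (𝓝 (0, 0, m1)) (𝓝 (-1 / eb F)) := by
    have h := (c2.sub_const (ea F)).div ((c1.sub_const (ea F)).mul (c1.sub_const (eb F)))
      (by rw [zero_sub, zero_sub]; exact mul_ne_zero (neg_ne_zero.2 ha) (neg_ne_zero.2 hb))
    have e : (0 - ea F) / ((0 - ea F) * (0 - eb F)) = -1 / eb F := by
      rw [zero_sub, zero_sub]
      field_simp
    rw [e] at h
    exact h
  have cw : Tendsto (ww (F := F)) (𝓝 (0, 0, m1)) (𝓝 0) := by
    have h := c1.mul (c3.mul co)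
    rw [zero_mul] at h
    exact h
  have ce : Tendsto (ee (F := F)) (𝓝 (0, 0, m1)) (𝓝 1) := by
    have h := (tendsto_const_nhds (x := (1 : F))).div (cw.const_sub 1) (by simp)
    rw [sub_zero, div_one] at h
    exact h
  have cd : Tendsto (d2 (F := F)) (𝓝 (0, 0, m1)) (𝓝 1) := by
    have h := (co.const_mul (- eb F)).mul ce
    have e : - eb F * (-1 / eb F) * 1 = 1 := by field_simp
    rw [e] at h
    exact h
  have cth : Tendsto (th2 (F := F)) (𝓝 (0, 0, m1)) (𝓝 1) := by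
    have h := co.mul (c2.sub_const (eb F))
    have e : -1 / eb F * (0 - eb F) = 1 := by
      rw [zero_sub]
      field_simp
    rw [e] at h
    exact h
  have ca : Tendsto (a2 (F := F)) (𝓝 (0, 0, m1)) (𝓝 0) := by
    have h := (cth.sub (cd.pow 2)).div ((c3.mul cd).const_sub 1)
      (by rw [mul_one]; exact sub_ne_zero.2 hm.symm)
    rw [one_pow, sub_self, zero_div] at h
    exact h
  have ck : Tendsto (k2 (F := F)) (𝓝 (0, 0, m1)) (𝓝 1) := by
    have h := cd.sub (c3.mul ca)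
    rw [mul_zero, sub_zero] at h
    exact h
  have cA : Tendsto (fun p : F × F × F => p.1 * p.2.2 ^ 2 * a2 p) (𝓝 (0, 0, m1)) (𝓝 0) := by
    have h := (c1.mul (c3.pow 2)).mul ca
    rw [mul_zero] at h
    exact h
  have cx : Tendsto (xq (F := F)) (𝓝 (0, 0, m1)) (𝓝 (ea F - eb F)) := by
    have h := (ck.mul ((cd.mul ck).sub ((co.pow 2).const_mul (ea F * eb F)))).div
      ((co.pow 2).mul (cA.sub_const (eb F)))
      (by
        rw [zero_sub]
        exact mul_ne_zero (pow_ne_zero 2 (div_ne_zero (neg_ne_zero.2 one_ne_zero) hb))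
          (neg_ne_zero.2 hb))
    have e : 1 * (1 * 1 - ea F * eb F * (-1 / eb F) ^ 2) / ((-1 / eb F) ^ 2 * (0 - eb F)) =
        ea F - eb F := by
      rw [zero_sub]
      field_simp
      ring
    rw [e] at h
    exact h
  have ct : Tendsto (tq (F := F)) (𝓝 (0, 0, m1)) (𝓝 0) := by
    have h := cA.add (((((c1.pow 2).mul c3).mul cd).mul ck).div cx hab)
    have e : (0 + 0 ^ 2 * m1 * 1 * 1 / (ea F - eb F) : F) = 0 := by simp
    rw [e] at h
    exact h
  have cm : Tendsto (mq (F := F)) (𝓝 (0, 0, m1)) (𝓝 0) := by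
    have h := (((c1.mul co).mul (((c3.mul cx).sub_const (ea F)).mul
      ((c3.mul cx).sub_const (eb F)))).mul (ct.sub_const (eb F))).div
      (cx.mul ((ct.sub_const (ea F)).mul (ct.sub_const (eb F)))) (by
        rw [zero_sub, zero_sub]
        exact mul_ne_zero hab (mul_ne_zero (neg_ne_zero.2 ha) (neg_ne_zero.2 hb)))
    rw [zero_mul, zero_mul, zero_mul, zero_div] at h
    exact h
  exact ⟨co, cw, cd, ca, ck, cx, ct, cm, c1, c2, c3⟩

theorem near_core [Gd F] {m1 : F} {P : F × F × F → Prop}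
    (hP : ∀ᶠ p in 𝓝 ((0 : F), (0 : F), m1), P p) :
    ∃ r : ℝ, 0 < r ∧ ∀ z : F × F × F, NearE m1 r z → OnU (t00f z) ∧ P (pc (t00f z)) := by
  obtain ⟨r, hr, hball⟩ := Metric.mem_nhds_iff.1 hP
  have hC : 0 < ‖ea F * eb F‖ := norm_pos_iff.2 (eaeb_ne F)
  have hr1 : 0 < min r (r / ‖ea F * eb F‖) := lt_min hr (div_pos hr hC)
  refine ⟨min r (r / ‖ea F * eb F‖), hr1, fun z hz => ?_⟩
  obtain ⟨hU, h1, h2, h3⟩ := hz
  have hU' := onU_t00f hU
  refine ⟨hU', hball ?_⟩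
  have g : ∀ a : F, 1 / min r (r / ‖ea F * eb F‖) < ‖a‖ → ‖ea F * eb F / a‖ < r := by
    intro a ha
    have ha0 : 0 < ‖a‖ := lt_trans (div_pos one_pos hr1) ha
    have h4 : 1 / (r / ‖ea F * eb F‖) ≤ 1 / min r (r / ‖ea F * eb F‖) :=
      one_div_le_one_div_of_le hr1 (min_le_right _ _)
    have h5 := lt_of_le_of_lt h4 ha
    rw [norm_div, div_lt_iff₀ ha0]
    rw [one_div_div, div_lt_iff₀ hr] at h5
    linarith [mul_comm r ‖a‖]
  rw [Metric.mem_ball, Prod.dist_eq, Prod.dist_eq]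
  refine max_lt ?_ (max_lt ?_ ?_)
  · rw [dist_zero_right]
    exact g _ h1
  · rw [dist_zero_right]
    exact g _ h2
  · show dist (mz (t00f z)) m1 < r
    rw [mz_t00f hU, dist_eq_norm]
    exact lt_of_lt_of_le h3 (min_le_left _ _)

/-- the list of conditions which hold near the exceptional curve -/
theorem cond_near [Gd F] {m1 : F} (hm : m1 ≠ 1)
    (hm4 : (m1 * (ea F - eb F) - ea F) * (m1 * (ea F - eb F) - eb F) ≠ 0) :
    ∀ᶠ p in 𝓝 ((0 : F), (0 : F), m1), ∀ q : F × F × F, OnU q → pc q = p → jD q := by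
  have ha := ea_ne F
  have hb := eb_ne F
  have hab := eab_ne F
  obtain ⟨co, cw, cd, ca, ck, cx, ct, cm, c1, c2, c3⟩ := cont_all hm
  have k1 := cw.eventually_ne (zero_ne_one (α := F))
  have k2' := ((c3.mul cd).const_sub 1).eventually_ne
    (show (1 - m1 * 1 : F) ≠ 0 by rw [mul_one]; exact sub_ne_zero.2 hm.symm)
  have k3 := (((c1.mul (c3.pow 2)).mul ca)).eventually_ne
    (show (0 * m1 ^ 2 * 0 : F) ≠ eb F by
      rw [mul_zero]
      exact fun h => hb h.symm)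
  have k4 := ck.eventually_ne (one_ne_zero (α := F))
  have k5 := ((cd.mul ck).sub ((co.pow 2).const_mul (ea F * eb F))).eventually_ne
    (show (1 * 1 - ea F * eb F * (-1 / eb F) ^ 2 : F) ≠ 0 by
      have : (1 * 1 - ea F * eb F * (-1 / eb F) ^ 2 : F) = - (ea F - eb F) / eb F := by
        field_simp
        ring
      rw [this]
      exact div_ne_zero (neg_ne_zero.2 hab) hb)
  have k6 := (cx.sub (c1.mul cd)).eventually_ne
    (show (ea F - eb F - 0 * 1 : F) ≠ 0 by rw [zero_mul, sub_zero]; exact hab)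
  have k7 := (((c3.mul cx).sub_const (ea F)).mul ((c3.mul cx).sub_const (eb F))).eventually_ne hm4
  filter_upwards [k1, k2', k3, k4, k5, k6, k7] with p h1 h2' h3 h4 h5 h6 h7 q hU hq
  subst hq
  have hx := (onU_facts hU).1
  have hmz := mz_ne hU
  refine ⟨hU, ?_, ?_, ?_, ?_, ?_, ?_, ?_⟩
  · rw [link_w hU]; exact h1
  · rw [link_d hU]
    intro h
    apply h2'
    apply mul_left_cancel₀ hx
    show q.1 * (1 - mz q * d2 (pc q)) = q.1 * 0
    linear_combination h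
  · rw [link_a hU]; exact h3
  · rw [← sub_ne_zero, link_da hU]
    exact mul_ne_zero (mul_ne_zero hx hmz) h4
  · rw [link_da hU, link_d hU, link_w hU]
    intro h
    apply h5
    apply mul_left_cancel₀ (mul_ne_zero (pow_ne_zero 2 hx) (pow_ne_zero 2 hmz))
    have e : ww (pc q) = q.1 * (mz q * o1 (pc q)) := rfl
    rw [e] at h
    linear_combination h
  · rw [link_x hU, link_d hU]
    intro h
    apply h6
    apply mul_left_cancel₀ hmz
    show mz q * (xq (pc q) - q.1 * d2 (pc q)) = mz q * 0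
    linear_combination h
  · rw [link_x hU]; exact h7

theorem norm_inv_gt [Gd F] {ρ : ℝ} (hρ : 0 < ρ) {a : F} (ha : a ≠ 0)
    (h : ‖a‖ < ρ * ‖ea F * eb F‖) : 1 / ρ < ‖ea F * eb F / a‖ := by
  have ha0 : 0 < ‖a‖ := norm_pos_iff.2 ha
  rw [norm_div, div_lt_div_iff₀ hρ ha0]
  linarith

/-- JNE: `J` near a point of the exceptional curve, `m1 = a b / ((a - b) x1)` -/
theorem jne_gen [Gd F] (x1 : F) (ρ : ℝ) (hρ : 0 < ρ) (hx0 : x1 ≠ 0) (hx1 : x1 ≠ ea F)
    (hxm : x1 ≠ eb F) (hx2 : (ea F - eb F) * x1 ≠ ea F * eb F) :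
    ∃ r : ℝ, 0 < r ∧ ∀ z : F × F × F, NearE (ea F * eb F / ((ea F - eb F) * x1)) r z →
      ∃ z', Step .jj z z' ∧ NearG x1 ρ z' := by
  have ha := ea_ne F
  have hb := eb_ne F
  have hab := eab_ne F
  have hC : 0 < ‖ea F * eb F‖ := norm_pos_iff.2 (eaeb_ne F)
  have h2x : (ea F - eb F) * x1 ≠ 0 := mul_ne_zero hab hx0
  have hm : ea F * eb F / ((ea F - eb F) * x1) ≠ 1 := by
    intro h
    rw [div_eq_iff h2x] at h
    apply hx2
    linear_combination (-1) * h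
  have hm2 : ea F * eb F / ((ea F - eb F) * x1) * (ea F - eb F) = ea F * eb F / x1 := by
    field_simp
  have hm4 : (ea F * eb F / ((ea F - eb F) * x1) * (ea F - eb F) - ea F) *
      (ea F * eb F / ((ea F - eb F) * x1) * (ea F - eb F) - eb F) ≠ 0 := by
    rw [hm2]
    refine mul_ne_zero ?_ ?_
    · intro h
      have h3 : ea F * (eb F - x1) = 0 := by
        rw [sub_eq_zero, div_eq_iff hx0] at h
        linear_combination h
      exact hxm (sub_eq_zero.1 ((mul_eq_zero.1 h3).resolve_left ha)).symm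
    · intro h
      have h3 : eb F * (ea F - x1) = 0 := by
        rw [sub_eq_zero, div_eq_iff hx0] at h
        linear_combination h
      exact hx1 (sub_eq_zero.1 ((mul_eq_zero.1 h3).resolve_left hb)).symm
  obtain ⟨co, cw, cd, ca, ck, cx, ct, cm, c1, c2, c3⟩ := cont_all hm
  have hmx : ea F * eb F / ((ea F - eb F) * x1) * (ea F - eb F) ≠ 0 := by
    rw [hm2]; exact div_ne_zero (eaeb_ne F) hx0
  have l1 := (tendsto_const_nhds (x := (ea F * eb F))).div (c3.mul cx) hmx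
  have e1 : ea F * eb F / (ea F * eb F / ((ea F - eb F) * x1) * (ea F - eb F)) = x1 := by
    rw [hm2]; field_simp
  rw [e1] at l1
  have l2 := l1.eventually (Metric.ball_mem_nhds x1 hρ)
  have l3 := ct.eventually (Metric.ball_mem_nhds (0 : F) (mul_pos hρ hC))
  obtain ⟨r, hr, H⟩ := near_core ((cond_near hm hm4).and (l2.and l3))
  refine ⟨r, hr, fun z hz => ?_⟩
  obtain ⟨hU', g1, g2, g3⟩ := H z hz
  have hJ : JD z := g1 _ hU' rfl
  obtain ⟨k1, k2', k3⟩ := JD_JJf hz.1 hJ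
  have hUj := (jD_jf hJ).1.1
  have fj := onU_facts hUj
  refine ⟨JJf z, ⟨hz.1, k3, hJ, rfl⟩, k3, ?_, ?_⟩
  · have e2 : (JJf z).1 = ea F * eb F / (mz (t00f z) * xq (pc (t00f z))) := by
      show ea F * eb F / jx (t00f z) = _
      rw [link_x hU']
    rw [e2, ← dist_eq_norm]
    exact g2
  · show 1 / ρ < ‖ea F * eb F / jt (t00f z)‖
    refine norm_inv_gt hρ fj.2.2.1 ?_
    rw [link_tt hU', ← dist_zero_right]
    exact g3

/-- JCO: `J` near the corner -/
theorem jco_gen [Gd F] (ρ : ℝ) (hρ : 0 < ρ) :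
    ∃ r : ℝ, 0 < r ∧ ∀ z : F × F × F, NearE 0 r z →
      ∃ z', Step .jj z z' ∧ NearE 0 ρ z' := by
  have ha := ea_ne F
  have hb := eb_ne F
  have hC : 0 < ‖ea F * eb F‖ := norm_pos_iff.2 (eaeb_ne F)
  have hm : (0 : F) ≠ 1 := zero_ne_one
  have hm4 : ((0 : F) * (ea F - eb F) - ea F) * (0 * (ea F - eb F) - eb F) ≠ 0 := by
    rw [zero_mul, zero_sub, zero_sub]
    exact mul_ne_zero (neg_ne_zero.2 ha) (neg_ne_zero.2 hb)
  obtain ⟨co, cw, cd, ca, ck, cx, ct, cm, c1, c2, c3⟩ := cont_all hm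
  have l1 := c3.mul cx
  rw [zero_mul] at l1
  have l2 := l1.eventually (Metric.ball_mem_nhds (0 : F) (mul_pos hρ hC))
  have l3 := ct.eventually (Metric.ball_mem_nhds (0 : F) (mul_pos hρ hC))
  have l4 := cm.eventually (Metric.ball_mem_nhds (0 : F) hρ)
  obtain ⟨r, hr, H⟩ := near_core ((cond_near hm hm4).and (l2.and (l3.and l4)))
  refine ⟨r, hr, fun z hz => ?_⟩
  obtain ⟨hU', g1, g2, g3, g4⟩ := H z hz
  have hJ : JD z := g1 _ hU' rfl
  obtain ⟨k1, k2', k3⟩ := JD_JJf hz.1 hJ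
  have hUj := (jD_jf hJ).1.1
  have fj := onU_facts hUj
  refine ⟨JJf z, ⟨hz.1, k3, hJ, rfl⟩, k3, ?_, ?_, ?_⟩
  · show 1 / ρ < ‖ea F * eb F / jx (t00f z)‖
    refine norm_inv_gt hρ fj.1 ?_
    rw [link_x hU', ← dist_zero_right]
    exact g2
  · show 1 / ρ < ‖ea F * eb F / jt (t00f z)‖
    refine norm_inv_gt hρ fj.2.2.1 ?_
    rw [link_tt hU', ← dist_zero_right]
    exact g3
  · show ‖mz (t00f (jf (t00f z))) - 0‖ < ρ
    rw [mz_t00f hUj, link_m hU', ← dist_eq_norm]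
    exact g4

end top

end Pool.Agent.WAQ.H90
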