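import Pool.Agent.WAQ.Exports
import Pool.Agent.Helper90_WAQ.JLoc
import Pool.Agent.Helper90_WAQ.JDen

/-! JCO -/

namespace Pool.Agent.WAQ.H90

variable [Par]

theorem jco : JcoStmt := fun F _ _ h ρ hρ => by
  have := (locSq_of_isLoc h).gd
  exact jco_gen ρ hρ

end Pool.Agent.WAQ.H90
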