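import Pool.Agent.WAQ.Exports
import Pool.Agent.Helper90_WAQ.JLoc
import Pool.Agent.Helper90_WAQ.JDen

/-! JNE -/

namespace Pool.Agent.WAQ.H90

variable [Par]

theorem jne : JneStmt := fun F _ _ h x1 ρ hρ hx => by
  have := (locSq_of_isLoc h).gd
  exact jne_gen x1 ρ hρ hx.1 hx.2.1 hx.2.2.1 hx.2.2.2

end Pool.Agent.WAQ.H90
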