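import Pool.Agent.WAQ.XU
import Pool.Agent.Helper90_WAQ.JDen

/-!
The open part `XU F` is dense in the smooth projective K3 surface `XP a b F`.
-/

namespace Pool.Agent.WAQ.H90

open Filter Topology

variable [Par]

section top
variable {F : Type} [NormedField F]

theorem cont_incl : Continuous (XU.incl (F := F)) := by
  have h1 : Continuous (XU.coords (F := F)) := by
    unfold XU.coords
    refine Continuous.subtype_mk ?_ _
    unfold cub
    fun_prop
  exact continuous_quotient_mk'.comp h1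

/-- the form `F4` at the parameters -/
theorem F4_par (p : F × F) : F4 Par.a Par.b p =
    p.1 * p.2 * (p.1 - ea F * p.2) * (p.1 - eb F * p.2) := rfl

/-- `F4` is open at its nonzero zeros -/
theorem F4_open [CompleteSpace F] (h : LocSq F) {p : F × F} (hp : p ≠ 0)
    (h0 : F4 Par.a Par.b p = 0)
    {N : Set (F × F)} (hN : N ∈ 𝓝 p) : F4 Par.a Par.b '' N ∈ 𝓝 (0 : F) := by
  have := h.gd
  have ha := ea_ne F
  have hb := eb_ne F
  have hab := eab_ne F
  obtain ⟨c, hc0, hc1⟩ := h.small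
  let _ : NontriviallyNormedField F := NontriviallyNormedField.ofNormNeOne ⟨c, hc0, hc1.ne⟩
  obtain ⟨s0, s1⟩ := p
  rw [F4_par] at h0
  simp only at h0
  have d1 : HasStrictDerivAt (fun s : F => F4 Par.a Par.b (s, s1))
      (s1 * (3 * s0 ^ 2 - 2 * (ea F + eb F) * s1 * s0 + ea F * eb F * s1 ^ 2)) s0 := by
    have h3 := (((hasStrictDerivAt_pow 3 s0).const_mul s1).sub
      ((hasStrictDerivAt_pow 2 s0).const_mul ((ea F + eb F) * s1 ^ 2))).add
      ((hasStrictDerivAt_id s0).const_mul (ea F * eb F * s1 ^ 3))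
    have e : (fun s : F => F4 Par.a Par.b (s, s1)) =
        (fun s : F => s1 * s ^ 3 - (ea F + eb F) * s1 ^ 2 * s ^ 2 + ea F * eb F * s1 ^ 3 * s) := by
      funext s
      rw [F4_par]
      ring
    rw [e]
    refine h3.congr_deriv ?_
    push_cast
    ring
  have d2 : HasStrictDerivAt (fun s : F => F4 Par.a Par.b (s0, s))
      (s0 * (s0 ^ 2 - 2 * (ea F + eb F) * s0 * s1 + 3 * (ea F * eb F) * s1 ^ 2)) s1 := by
    have h3 := (((hasStrictDerivAt_id s1).const_mul (s0 ^ 3)).sub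
      ((hasStrictDerivAt_pow 2 s1).const_mul ((ea F + eb F) * s0 ^ 2))).add
      ((hasStrictDerivAt_pow 3 s1).const_mul (ea F * eb F * s0))
    have e : (fun s : F => F4 Par.a Par.b (s0, s)) =
        (fun s : F => s0 ^ 3 * s - (ea F + eb F) * s0 ^ 2 * s ^ 2 + ea F * eb F * s0 * s ^ 3) := by
      funext s
      rw [F4_par]
      ring
    rw [e]
    refine h3.congr_deriv ?_
    push_cast
    ring
  have key : s1 * (3 * s0 ^ 2 - 2 * (ea F + eb F) * s1 * s0 + ea F * eb F * s1 ^ 2) ≠ 0 ∨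
      s0 * (s0 ^ 2 - 2 * (ea F + eb F) * s0 * s1 + 3 * (ea F * eb F) * s1 ^ 2) ≠ 0 := by
    by_cases h1 : s1 = 0
    · right
      have hs0 : s0 ≠ 0 := by
        rintro rfl
        exact hp (by rw [h1]; rfl)
      rw [h1]
      have : s0 * (s0 ^ 2 - 2 * (ea F + eb F) * s0 * 0 + 3 * (ea F * eb F) * 0 ^ 2) = s0 ^ 3 := by
        ring
      rw [this]
      exact pow_ne_zero 3 hs0
    · left
      refine mul_ne_zero h1 ?_
      have h4 : s0 * ((s0 - ea F * s1) * (s0 - eb F * s1)) = 0 := by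
        apply mul_left_cancel₀ h1
        linear_combination h0
      rcases mul_eq_zero.1 h4 with h5 | h5
      · rw [h5]
        have : (3 * 0 ^ 2 - 2 * (ea F + eb F) * s1 * 0 + ea F * eb F * s1 ^ 2 : F) =
            ea F * eb F * s1 ^ 2 := by ring
        rw [this]
        exact mul_ne_zero (mul_ne_zero ha hb) (pow_ne_zero 2 h1)
      · rcases mul_eq_zero.1 h5 with h6 | h6
        · have h7 : s0 = ea F * s1 := by linear_combination h6
          rw [h7]
          have : (3 * (ea F * s1) ^ 2 - 2 * (ea F + eb F) * s1 * (ea F * s1)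
              + ea F * eb F * s1 ^ 2 : F) = ea F * (ea F - eb F) * s1 ^ 2 := by ring
          rw [this]
          exact mul_ne_zero (mul_ne_zero ha hab) (pow_ne_zero 2 h1)
        · have h7 : s0 = eb F * s1 := by linear_combination h6
          rw [h7]
          have : (3 * (eb F * s1) ^ 2 - 2 * (ea F + eb F) * s1 * (eb F * s1)
              + ea F * eb F * s1 ^ 2 : F) = - (eb F * (ea F - eb F)) * s1 ^ 2 := by ring
          rw [this]
          exact mul_ne_zero (neg_ne_zero.2 (mul_ne_zero hb hab)) (pow_ne_zero 2 h1)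
  have h0' : F4 Par.a Par.b (s0, s1) = 0 := h0
  rcases key with k | k
  · have hm := d1.map_nhds_eq k
    rw [h0'] at hm
    rw [← hm, mem_map]
    have hc : ContinuousAt (fun s : F => (s, s1)) s0 := by fun_prop
    filter_upwards [hc.preimage_mem_nhds hN] with s hs
    exact ⟨(s, s1), hs, rfl⟩
  · have hm := d2.map_nhds_eq k
    rw [h0'] at hm
    rw [← hm, mem_map]
    have hc : ContinuousAt (fun s : F => (s0, s)) s1 := by fun_prop
    filter_upwards [hc.preimage_mem_nhds hN] with s hs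
    exact ⟨(s0, s), hs, rfl⟩

/-- `F4` does not vanish identically near any point -/
theorem F4_ne_near (h : LocSq F) {p : F × F} {N : Set (F × F)} (hN : N ∈ 𝓝 p) :
    ∃ q ∈ N, F4 Par.a Par.b q ≠ 0 := by
  obtain ⟨a, b⟩ := p
  obtain ⟨A, hA, B, hB, hAB⟩ := mem_nhds_prod_iff.1 hN
  obtain ⟨b', hb', hb0⟩ := exists_near h (Set.finite_singleton (0 : F)) hB
  obtain ⟨a', ha', ha0⟩ := exists_near h (Set.toFinite ({0, ea F * b', eb F * b'} : Set F)) hA
  refine ⟨(a', b'), hAB ⟨ha', hb'⟩, ?_⟩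
  simp only [Set.mem_insert_iff, Set.mem_singleton_iff, not_or] at ha0 hb0
  obtain ⟨h1, h2, h3⟩ := ha0
  rw [F4_par]
  exact mul_ne_zero (mul_ne_zero (mul_ne_zero h1 hb0) (sub_ne_zero.2 h2)) (sub_ne_zero.2 h3)

theorem cont_F4 : Continuous (F4 Par.a Par.b (F := F)) := by
  unfold F4
  fun_prop

/-- the main local step -/
theorem good_near_A [CompleteSpace F] (h : LocSq F) {x t : F × F} {u v : F} (hx : x ≠ 0)
    (hv : v ≠ 0) (he : u ^ 2 * F4 Par.a Par.b t = v ^ 2 * F4 Par.a Par.b x)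
    (hFx : F4 Par.a Par.b x = 0) {Nx Nt : Set (F × F)}
    {Nu : Set F} (hNx : Nx ∈ 𝓝 x) (hNt : Nt ∈ 𝓝 t) (hNu : Nu ∈ 𝓝 u) :
    ∃ x' ∈ Nx, ∃ t' ∈ Nt, ∃ u' ∈ Nu, u' ≠ 0 ∧ F4 Par.a Par.b x' ≠ 0 ∧ F4 Par.a Par.b t' ≠ 0 ∧
      u' ^ 2 * F4 Par.a Par.b t' = v ^ 2 * F4 Par.a Par.b x' := by
  have hopen := F4_open h hx hFx hNx
  have hv2 : v ^ 2 ≠ 0 := pow_ne_zero 2 hv
  have hc : Tendsto (fun q : (F × F) × F => q.2 ^ 2 * F4 Par.a Par.b q.1 / v ^ 2)
      (𝓝 (t, u)) (𝓝 0) := by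
    have hcc : Continuous (fun q : (F × F) × F => q.2 ^ 2 * F4 Par.a Par.b q.1 / v ^ 2) := by
      have := cont_F4 (F := F)
      fun_prop
    have h1 := hcc.tendsto (t, u)
    have h2 : (u ^ 2 * F4 Par.a Par.b t / v ^ 2 : F) = 0 := by rw [he, hFx, mul_zero, zero_div]
    simp only at h1
    rw [h2] at h1
    exact h1
  have h3 := hc hopen
  rw [mem_map] at h3
  obtain ⟨A, hA, B, hB, hAB⟩ := mem_nhds_prod_iff.1 h3
  obtain ⟨u', hu', hu0⟩ := exists_near h (Set.finite_singleton (0 : F)) (inter_mem hB hNu)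
  obtain ⟨t', ht', ht0⟩ := F4_ne_near h (inter_mem hA hNt)
  have h4 : u' ^ 2 * F4 Par.a Par.b t' / v ^ 2 ∈ F4 Par.a Par.b '' Nx :=
    hAB (Set.mk_mem_prod ht'.1 hu'.1)
  obtain ⟨x', hx', hx4⟩ := h4
  have hu00 : u' ≠ 0 := hu0
  refine ⟨x', hx', t', ht'.2, u', hu'.2, hu00, ?_, ht0, ?_⟩
  · rw [hx4]
    exact div_ne_zero (mul_ne_zero (pow_ne_zero 2 hu00) ht0) hv2
  · rw [hx4, mul_div_cancel₀ _ hv2]

theorem ne_zero_of_F4 {p : F × F} (h : F4 Par.a Par.b p ≠ 0) : p ≠ 0 := by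
  rintro rfl
  apply h
  simp [F4]

/-- points with `F4 x, F4 t ≠ 0` are dense in the cone -/
theorem good_near [CompleteSpace F] (h : LocSq F) {p : (F × F) × (F × F) × (F × F)}
    (hp : p ∈ XC Par.a Par.b F) {N : Set ((F × F) × (F × F) × (F × F))} (hN : N ∈ 𝓝 p) :
    ∃ q ∈ N, q ∈ XC Par.a Par.b F ∧ F4 Par.a Par.b q.1 ≠ 0 ∧ F4 Par.a Par.b q.2.1 ≠ 0 := by
  obtain ⟨x, t, u, v⟩ := p
  obtain ⟨hx, ht, huv, he⟩ := hp
  simp only at hx ht huv he
  obtain ⟨Nx, hNx, N1, hN1, hs1⟩ := mem_nhds_prod_iff.1 hN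
  obtain ⟨Nt, hNt, N2, hN2, hs2⟩ := mem_nhds_prod_iff.1 hN1
  obtain ⟨Nu, hNu, Nv, hNv, hs3⟩ := mem_nhds_prod_iff.1 hN2
  by_cases c1 : F4 Par.a Par.b x ≠ 0 ∧ F4 Par.a Par.b t ≠ 0
  · exact ⟨_, mem_of_mem_nhds hN, ⟨hx, ht, huv, he⟩, c1.1, c1.2⟩
  have c2 : (F4 Par.a Par.b x = 0 ∧ v ≠ 0) ∨ (F4 Par.a Par.b t = 0 ∧ u ≠ 0) := by
    by_cases hv : v = 0
    · have hu : u ≠ 0 := by
        rintro rfl
        exact huv (by rw [hv]; rfl)
      right
      refine ⟨?_, hu⟩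
      rw [hv] at he
      have h1 : u ^ 2 * F4 Par.a Par.b t = 0 := by linear_combination he
      exact (mul_eq_zero.1 h1).resolve_left (pow_ne_zero 2 hu)
    · by_cases hx4 : F4 Par.a Par.b x = 0
      · exact Or.inl ⟨hx4, hv⟩
      · right
        have ht4 : F4 Par.a Par.b t = 0 := by
          by_contra hcon
          exact c1 ⟨hx4, hcon⟩
        rw [ht4, mul_zero] at he
        exact absurd he.symm (mul_ne_zero (pow_ne_zero 2 hv) hx4)
  rcases c2 with ⟨hx4, hv⟩ | ⟨ht4, hu⟩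
  · obtain ⟨x', hx', t', ht', u', hu', hu0, hx0, ht0, he'⟩ :=
      good_near_A h hx hv he hx4 hNx hNt hNu
    refine ⟨(x', t', u', v), hs1 ⟨hx', hs2 ⟨ht', hs3 ⟨hu', mem_of_mem_nhds hNv⟩⟩⟩,
      ⟨ne_zero_of_F4 hx0, ne_zero_of_F4 ht0, ?_, he'⟩, hx0, ht0⟩
    intro h0
    exact hu0 (congrArg Prod.fst h0)
  · obtain ⟨t', ht', x', hx', v', hv', hv0, ht0, hx0, he'⟩ :=
      good_near_A h ht hu he.symm ht4 hNt hNx hNv
    refine ⟨(x', t', u, v'), hs1 ⟨hx', hs2 ⟨ht', hs3 ⟨mem_of_mem_nhds hNu, hv'⟩⟩⟩,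
      ⟨ne_zero_of_F4 hx0, ne_zero_of_F4 ht0, ?_, he'.symm⟩, hx0, ht0⟩
    intro h0
    exact hu (congrArg Prod.fst h0)

/-- dehomogenization -/
theorem cub_div {x0 x1 : F} (h : x1 ≠ 0) : cub (x0 / x1) = F4 Par.a Par.b (x0, x1) / x1 ^ 4 := by
  rw [F4_par]
  simp only [cub]
  field_simp

/-- a point of the cone with `F4 x, F4 t ≠ 0` represents a point of the open part -/
theorem mem_range_incl {p : XC Par.a Par.b F} (hx : F4 Par.a Par.b p.1.1 ≠ 0)
    (ht : F4 Par.a Par.b p.1.2.1 ≠ 0) :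
    (Quotient.mk (xcSetoid Par.a Par.b F) p : XP Par.a Par.b F) ∈
      Set.range (XU.incl (F := F)) := by
  obtain ⟨⟨⟨x0, x1⟩, ⟨t0, t1⟩, ⟨u, v⟩⟩, hp1, hp2, hp3, he⟩ := p
  simp only at hx ht he
  have hx1 : x1 ≠ 0 := by
    rintro rfl
    apply hx
    rw [F4_par]
    ring
  have ht1 : t1 ≠ 0 := by
    rintro rfl
    apply ht
    rw [F4_par]
    ring
  have hfx := cub_div (x0 := x0) hx1
  have hft := cub_div (x0 := t0) ht1
  have hu : u ≠ 0 := by
    rintro rfl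
    have h1 : v ^ 2 * F4 Par.a Par.b (x0, x1) = 0 := by linear_combination (-1) * he
    have hv : v = 0 := (pow_eq_zero_iff two_ne_zero).1 ((mul_eq_zero.1 h1).resolve_right hx)
    exact hp3 (by rw [hv]; rfl)
  have hv : v ≠ 0 := by
    rintro rfl
    have h1 : u ^ 2 * F4 Par.a Par.b (t0, t1) = 0 := by linear_combination he
    exact hu ((pow_eq_zero_iff two_ne_zero).1 ((mul_eq_zero.1 h1).resolve_right ht))
  have hft0 : cub (t0 / t1) ≠ 0 := by
    rw [hft]; exact div_ne_zero ht (pow_ne_zero 4 ht1)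
  refine ⟨⟨(x0 / x1, t0 / t1, cub (t0 / t1) * t1 ^ 2 * u / (v * x1 ^ 2)), ?_, ?_⟩, ?_⟩
  · show (cub (t0 / t1) * t1 ^ 2 * u / (v * x1 ^ 2)) ^ 2 = cub (x0 / x1) * cub (t0 / t1)
    rw [hft, hfx]
    generalize hA : F4 Par.a Par.b (t0, t1) = A at *
    generalize hB : F4 Par.a Par.b (x0, x1) = B at *
    field_simp
    linear_combination he
  · exact div_ne_zero (mul_ne_zero (mul_ne_zero hft0 (pow_ne_zero 2 ht1)) hu)
      (mul_ne_zero hv (pow_ne_zero 2 hx1))
  · apply Eq.symm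
    apply Quotient.sound (s := xcSetoid Par.a Par.b F)
    refine ⟨1 / x1, 1 / t1, cub (t0 / t1) * t1 ^ 2 / v,
      one_div_ne_zero hx1, one_div_ne_zero ht1,
      div_ne_zero (mul_ne_zero hft0 (pow_ne_zero 2 ht1)) hv, ?_, ?_, ?_⟩
    · simp only [XU.coords, Prod.mk.injEq]
      constructor <;> field_simp
    · simp only [XU.coords, Prod.mk.injEq]
      constructor <;> field_simp
    · simp only [XU.coords, Prod.mk.injEq]
      generalize cub (t0 / t1) = B at *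
      constructor
      · field_simp
      · field_simp

/-- the open part is dense in the projective surface -/
theorem denseRange_incl [CompleteSpace F] (h : LocSq F) : DenseRange (XU.incl (F := F)) := by
  intro q
  obtain ⟨p, rfl⟩ := Quotient.exists_rep q
  rw [mem_closure_iff_nhds]
  intro O hO
  have hc : Continuous (fun p : XC Par.a Par.b F =>
      (Quotient.mk (xcSetoid Par.a Par.b F) p : XP Par.a Par.b F)) :=
    continuous_quotient_mk'
  have h1 := hc.continuousAt.preimage_mem_nhds hO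
  rw [nhds_subtype_eq_comap, mem_comap] at h1
  obtain ⟨N, hN, hs⟩ := h1
  obtain ⟨q, hq, hqX, hx, ht⟩ := good_near h p.2 hN
  refine ⟨Quotient.mk (xcSetoid Par.a Par.b F) ⟨q, hqX⟩, hs hq, ?_⟩
  exact mem_range_incl (p := ⟨q, hqX⟩) hx ht

end top

end Pool.Agent.WAQ.H90
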