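import Pool.Agent.Helper90_WAQ.J

/-!
For fixed `t` every bad condition of the involution `j` is a nonzero polynomial in `x`.
With `M = (x - a) * (x - b) * (t - b)`, `N = x * t * (t - a)` one has `w ^ 2 * M = N` on the
surface; a bad condition gives a relation `A = B * w`, hence `A ^ 2 = B ^ 2 * w ^ 2`; all
polynomials are nonzero at `x = a` or at `x = b`, where `M = 0`.
-/

namespace Pool.Agent.Helper90_WAQ

section field
variable {F : Type*} [Field F] {a b : F}

/-- the quadratic equation of the double plane -/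
def qj (a b w δ α x : F) : F :=
  w ^ 2 * (α - b) * x ^ 2 + (α * (a - α) + w * δ ^ 2 - w ^ 2 * (a + b) * (α - b)) * x
    + (δ - α) * (δ * (δ - α) - a * b * w ^ 2)

theorem bad1 {w M N : F} (hW : w ^ 2 * M = N) (h : w = 1) : M - N = 0 := by
  rw [← hW, h]; ring

theorem bad2 {x w M N : F} (hW : w ^ 2 * M = N) (h : x * (1 - w) = - b * w) :
    N * (x - b) ^ 2 - x ^ 2 * M = 0 := by
  rw [← hW]
  linear_combination (- M * (w * (x - b) + x)) * h

theorem bad3 {x t w δ M N : F} (hW : w ^ 2 * M = N) (hδ : δ * (1 - w) = - b * w)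
    (h : b * (x - δ) = x * t - δ ^ 2) :
    N * M * (2 * x * (b - t) - b ^ 2) ^ 2 - x ^ 2 * (b - t) ^ 2 * (M + N) ^ 2 = 0 := by
  have e : w * (2 * x * (b - t) - b ^ 2) = x * (b - t) * (1 + w ^ 2) := by
    have k : b * (x * (1 - w) ^ 2) - b * ((δ * (1 - w)) * (1 - w)) = x * t * (1 - w) ^ 2
        - (δ * (1 - w)) ^ 2 := by
      linear_combination (1 - w) ^ 2 * h
    rw [hδ] at k
    linear_combination (-1) * k
  rw [← hW]
  linear_combination (M ^ 2 * (w * (2 * x * (b - t) - b ^ 2) + x * (b - t) * (1 + w ^ 2))) * e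

theorem bad4 {t w M N : F} (hW : w ^ 2 * M = N) (h : t * (1 - w) = - b * w) :
    N * (t - b) ^ 2 - t ^ 2 * M = 0 := by
  rw [← hW]
  linear_combination (- M * (w * (t - b) + t)) * h

theorem bad5 {x t w δ α M N : F} (hb : b ≠ 0) (hW : w ^ 2 * M = N) (hw : w ≠ 0)
    (hδ : δ * (1 - w) = - b * w)
    (hα : α * (x - δ) = x * t - δ ^ 2) (h : δ * (δ - α) - a * b * w ^ 2 = 0) :
    N * (x * (a + t - b) * M + a * (x - b) * N) ^ 2
      - M * (x * t * M + a * (2 * x - b) * N) ^ 2 = 0 := by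
  have k : x * (δ * (1 - w)) ^ 2 - x * t * (δ * (1 - w)) * (1 - w)
      - a * b * w ^ 2 * x * (1 - w) ^ 2
      + a * b * w ^ 2 * (δ * (1 - w)) * (1 - w) = 0 := by
    linear_combination (1 - w) ^ 2 * ((x - δ) * h + δ * hα)
  rw [hδ] at k
  have e : w * (x * (a + t - b) + w ^ 2 * (a * (x - b))) = x * t + a * (2 * x - b) * w ^ 2 := by
    apply mul_left_cancel₀ (mul_ne_zero hb hw)
    linear_combination (-1) * k
  rw [← hW]
  linear_combination (M ^ 3 * (w * (x * (a + t - b) + w ^ 2 * (a * (x - b)))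
    + x * t + a * (2 * x - b) * w ^ 2)) * e

theorem bad6 {x t w δ α M N : F} (hW : w ^ 2 * M = N) (hδ : δ * (1 - w) = - b * w)
    (hα : α * (x - δ) = x * t - δ ^ 2)
    (h : α * (a - δ - (a - b) * w) + 2 * δ ^ 2 = 0) :
    (x * t * (a * M ^ 2 + (a + 5 * (a - b)) * N * M + (a - b) * N ^ 2)
        - b ^ 2 * N * (a * M + (a - b) * N) + 2 * b ^ 2 * x * N * M) ^ 2
      - N * M * (2 * (a + (a - b)) * x * t * M + 4 * (a - b) * x * t * N
        - 2 * b ^ 2 * (a - b) * N + 2 * b ^ 2 * (x - b) * N) ^ 2 = 0 := by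
  have k : (x * t * (1 - w) ^ 2 - (δ * (1 - w)) ^ 2)
      * (a * (1 - w) - δ * (1 - w) - (a - b) * w * (1 - w))
      + 2 * (δ * (1 - w)) ^ 2 * (x * (1 - w) - δ * (1 - w)) = 0 := by
    linear_combination (1 - w) ^ 3 * ((x - δ) * h - (a - δ - (a - b) * w) * hα)
  rw [hδ] at k
  have e : x * t * (a + (a + 5 * (a - b)) * w ^ 2 + (a - b) * w ^ 4)
      - b ^ 2 * w ^ 2 * (a + (a - b) * w ^ 2) + 2 * b ^ 2 * x * w ^ 2 =
      w * (2 * (a + (a - b)) * x * t + 4 * (a - b) * x * t * w ^ 2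
        - 2 * b ^ 2 * (a - b) * w ^ 2 + 2 * b ^ 2 * (x - b) * w ^ 2) := by
    linear_combination k
  rw [← hW]
  linear_combination (M ^ 4 * (x * t * (a + (a + 5 * (a - b)) * w ^ 2 + (a - b) * w ^ 4)
      - b ^ 2 * w ^ 2 * (a + (a - b) * w ^ 2) + 2 * b ^ 2 * x * w ^ 2 +
      w * (2 * (a + (a - b)) * x * t + 4 * (a - b) * x * t * w ^ 2
        - 2 * b ^ 2 * (a - b) * w ^ 2 + 2 * b ^ 2 * (x - b) * w ^ 2))) * e

theorem bad7a {x t w δ α M N : F} (hW : w ^ 2 * M = N) (hδ : δ * (1 - w) = - b * w)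
    (hα : α * (x - δ) = x * t - δ ^ 2) (h : α * a + δ * (δ - α) = 0) :
    (x * t * (a * M + (a - b) * N) + b ^ 2 * (x - a) * N) ^ 2
      - (2 * a - b) ^ 2 * x ^ 2 * t ^ 2 * (N * M) = 0 := by
  have k : a * (x * t * (1 - w) ^ 2) - a * (δ * (1 - w)) ^ 2 + (δ * (1 - w)) ^ 2 * x
      - x * t * (δ * (1 - w)) * (1 - w) = 0 := by
    linear_combination (1 - w) ^ 2 * ((x - δ) * h + (δ - a) * hα)
  rw [hδ] at k
  have e : x * t * (a + (a - b) * w ^ 2) + b ^ 2 * (x - a) * w ^ 2 = (2 * a - b) * x * t * w := by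
    linear_combination k
  rw [← hW]
  linear_combination (M ^ 2 * (x * t * (a + (a - b) * w ^ 2) + b ^ 2 * (x - a) * w ^ 2
    + (2 * a - b) * x * t * w)) * e

theorem bad7b {x t w δ α M N : F} (hW : w ^ 2 * M = N) (hδ : δ * (1 - w) = - b * w)
    (hα : α * (x - δ) = x * t - δ ^ 2) (h : α * a + δ * (δ - α) - a ^ 2 = 0) :
    (a - b) ^ 2 * N - a ^ 2 * M = 0 ∨
      N * (x * (t - a) - b * (x - a)) ^ 2 - x ^ 2 * (t - a) ^ 2 * M = 0 := by
  have k : (a - δ) * (x * (t - a) - δ * (x - a)) = 0 := by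
    linear_combination (x - δ) * h + (δ - a) * hα
  rcases mul_eq_zero.1 k with k1 | k1
  · left
    have d1 : δ = a := by linear_combination (-1) * k1
    rw [d1] at hδ
    rw [← hW]
    linear_combination (- M * ((a - b) * w + a)) * hδ
  · right
    have e : x * (t - a) = w * (x * (t - a) - b * (x - a)) := by
      linear_combination (1 - w) * k1 + (x - a) * hδ
    rw [← hW]
    linear_combination (- M * (x * (t - a) + w * (x * (t - a) - b * (x - a)))) * e

theorem bad7c {x t w δ α M N : F} (hb : b ≠ 0) (hW : w ^ 2 * M = N)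
    (hδ : δ * (1 - w) = - b * w)
    (hα : α * (x - δ) = x * t - δ ^ 2) (h : α * b + δ * (δ - α) = 0) :
    (x * t * M + b * (x - b) * N) ^ 2 - x ^ 2 * t ^ 2 * (N * M) = 0 := by
  have k : b * (x * t * (1 - w) ^ 2) - b * (δ * (1 - w)) ^ 2 + (δ * (1 - w)) ^ 2 * x
      - x * t * (δ * (1 - w)) * (1 - w) = 0 := by
    linear_combination (1 - w) ^ 2 * ((x - δ) * h + (δ - b) * hα)
  rw [hδ] at k
  have e : x * t + b * (x - b) * w ^ 2 = x * t * w := by
    apply mul_left_cancel₀ hb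
    linear_combination k
  rw [← hW]
  linear_combination (M ^ 2 * (x * t + b * (x - b) * w ^ 2 + x * t * w)) * e

theorem bad7d {x t w δ α M N : F} (hb : b ≠ 0) (hW : w ^ 2 * M = N)
    (hδ : δ * (1 - w) = - b * w)
    (hα : α * (x - δ) = x * t - δ ^ 2) (h : α * b + δ * (δ - α) - a * b = 0) :
    (x * (t - a) * M - (a - b) * (x - b) * N) ^ 2 - N * M * (x * t - 2 * a * x + a * b) ^ 2
      = 0 := by
  have k : b * (x * t * (1 - w) ^ 2) - b * (δ * (1 - w)) ^ 2 + (δ * (1 - w)) ^ 2 * x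
      - x * t * (δ * (1 - w)) * (1 - w) - a * b * x * (1 - w) ^ 2
      + a * b * (δ * (1 - w)) * (1 - w) = 0 := by
    linear_combination (1 - w) ^ 2 * ((x - δ) * h + (δ - b) * hα)
  rw [hδ] at k
  have e : x * (t - a) - (a - b) * (x - b) * w ^ 2 = w * (x * t - 2 * a * x + a * b) := by
    apply mul_left_cancel₀ hb
    linear_combination k
  rw [← hW]
  linear_combination (M ^ 2 * (x * (t - a) - (a - b) * (x - b) * w ^ 2
    + w * (x * t - 2 * a * x + a * b))) * e

/-- the quadratic at the two special values and at `δ` -/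
theorem qj_delta {w δ α : F} (hδ : δ * (1 - w) = - b * w) :
    qj a b w δ α δ = δ * (α * (a - δ - (a - b) * w) + 2 * δ ^ 2) := by
  have h : w * δ = δ + b * w := by linear_combination (-1) * hδ
  unfold qj
  linear_combination (w * δ * α - w * δ * b - w * α * a + δ ^ 2 + δ * α) * h

theorem qj_a {w δ α : F} (hδ : δ * (1 - w) = - b * w) :
    (α * a + δ * (δ - α)) * (α * a + δ * (δ - α) - a ^ 2) = - (a - δ) * qj a b w δ α a := by
  have h : w * δ = δ + b * w := by linear_combination (-1) * hδ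
  unfold qj
  linear_combination (w * δ * a * b - w * a ^ 2 * b - δ ^ 2 * a + δ * a ^ 2) * h

theorem qj_b {w δ α : F} (hδ : δ * (1 - w) = - b * w) :
    (α * b + δ * (δ - α)) * (α * b + δ * (δ - α) - a * b) = - (b - δ) * qj a b w δ α b := by
  have h : w * δ = δ + b * w := by linear_combination (-1) * hδ
  unfold qj
  linear_combination (w * δ * a * b - w * a * b ^ 2 - δ ^ 2 * b + δ * a * b) * h

/-- both roots -/
theorem qj_zero {x t w δ α : F}
    (hf : w ^ 2 * ((x - a) * (x - b)) * (t - b) = x * t * (t - a))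
    (hδ : δ * (1 - w) = - b * w) (hα : α * (x - δ) = x * t - δ ^ 2) (hx : x ≠ δ) :
    qj a b w δ α x = 0 := by
  apply mul_left_cancel₀ (sub_ne_zero.2 hx)
  unfold qj
  linear_combination x * hf
    - (w * δ * a * x + w * δ * b * x - w * δ * x ^ 2 - w * a * b * x - δ ^ 2 * x + δ * a * x) * hδ
    - (- w ^ 2 * a * b + w ^ 2 * a * x + w ^ 2 * b * x - w ^ 2 * x ^ 2 + t * x + δ ^ 2 - δ * α
      + α * x - a * x) * hα

theorem qj_zero' {x w δ α x' : F} (h : qj a b w δ α x = 0) (hx : x ≠ 0)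
    (hx' : x' * (w ^ 2 * (α - b) * x) = (δ - α) * (δ * (δ - α) - a * b * w ^ 2)) :
    qj a b w δ α x' = 0 := by
  have hsum : w ^ 2 * (α - b) * x' = - (w ^ 2 * (α - b) * x
      + (α * (a - α) + w * δ ^ 2 - w ^ 2 * (a + b) * (α - b))) := by
    apply mul_left_cancel₀ hx
    unfold qj at h
    linear_combination hx' + h
  unfold qj
  linear_combination x' * hsum - hx'

end field

end Pool.Agent.Helper90_WAQ
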