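import Pool.Agent.WAQ.Defs
import Pool.Agent.Helper90_WAQ.JBad

/-!
The letter `jj` over a field: the domain is stable and the map is an involution there.
-/

namespace Pool.Agent.WAQ.H90

open Pool.Agent.Helper90_WAQ (OnX JRel onX_image fibre_image fibre_of_onX onX_of_fibre)

variable [Par] {F : Type} [Field F]

theorem onU_onX {z : F × F × F} (h : OnU z) : OnX (ea F) (eb F) z.1 z.2.1 z.2.2 := h.1

/-- the consequences of `y ≠ 0` -/
theorem onU_facts {z : F × F × F} (h : OnU z) :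
    z.1 ≠ 0 ∧ (z.1 - ea F) * (z.1 - eb F) ≠ 0 ∧ z.2.1 ≠ 0 ∧ z.2.1 - ea F ≠ 0 ∧
      z.2.1 - eb F ≠ 0 ∧ (z.2.1 - ea F) * (z.2.1 - eb F) ≠ 0 ∧
      z.1 - ea F ≠ 0 ∧ z.1 - eb F ≠ 0 := by
  obtain ⟨x, t, y⟩ := z
  obtain ⟨h1, hy⟩ := h
  simp only [cub] at h1 hy ⊢
  have h2 : (x * (x - ea F) * (x - eb F)) * (t * (t - ea F) * (t - eb F)) ≠ 0 := by
    rw [← h1]
    exact pow_ne_zero 2 hy
  have h3 := left_ne_zero_of_mul h2
  have h4 := right_ne_zero_of_mul h2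
  have x1 := left_ne_zero_of_mul (left_ne_zero_of_mul h3)
  have x2 := right_ne_zero_of_mul (left_ne_zero_of_mul h3)
  have x3 := right_ne_zero_of_mul h3
  have t1 := left_ne_zero_of_mul (left_ne_zero_of_mul h4)
  have t2 := right_ne_zero_of_mul (left_ne_zero_of_mul h4)
  have t3 := right_ne_zero_of_mul h4
  exact ⟨x1, mul_ne_zero x2 x3, t1, t2, t3, mul_ne_zero t2 t3, x2, x3⟩

theorem jw_ne {z : F × F × F} (h : OnU z) : jw z ≠ 0 := by
  obtain ⟨_, h1, _, _, h2, _⟩ := onU_facts h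
  unfold jw
  exact div_ne_zero h.2 (mul_ne_zero h1 h2)

theorem jd_ne [Gd F] {z : F × F × F} (h : OnU z) (hw : jw z ≠ 1) : jd z ≠ 0 := by
  unfold jd
  exact div_ne_zero (mul_ne_zero (neg_ne_zero.2 (eb_ne F)) (jw_ne h)) (sub_ne_zero.2 hw.symm)

/-- `z ↦ jf z` satisfies the relation -/
theorem jRel_of_jD {z : F × F × F} (h : jD z) :
    JRel (ea F) (eb F) z.1 z.2.1 z.2.2 (jw z) (jd z) (ja z) (jx z) (jt z) (jf z).2.2 := by
  obtain ⟨hU, w1, xd, a1, da, g, xd', x1'⟩ := h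
  obtain ⟨hx, h1, ht, ht1, h2, _⟩ := onU_facts hU
  have hw0 := jw_ne hU
  have ha : ja z - eb F ≠ 0 := sub_ne_zero.2 a1
  have hx' : jx z ≠ 0 := by
    unfold jx
    exact div_ne_zero (mul_ne_zero (sub_ne_zero.2 da) g)
      (mul_ne_zero (mul_ne_zero (pow_ne_zero 2 hw0) ha) hx)
  refine ⟨?_, ?_, ?_, ?_, ?_, ?_⟩
  · unfold jw
    exact div_mul_cancel₀ _ (mul_ne_zero h1 h2)
  · unfold jd
    exact div_mul_cancel₀ _ (sub_ne_zero.2 w1.symm)
  · unfold ja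
    exact div_mul_cancel₀ _ (sub_ne_zero.2 xd)
  · unfold jx
    exact div_mul_cancel₀ _ (mul_ne_zero (mul_ne_zero (pow_ne_zero 2 hw0) ha) hx)
  · unfold jt
    rw [add_sub_cancel_left]
    exact div_mul_cancel₀ _ hx'
  · rfl

theorem jx_ne {z : F × F × F} (h : jD z) : jx z ≠ 0 := by
  obtain ⟨hU, w1, xd, a1, da, g, xd', x1'⟩ := h
  obtain ⟨hx, h1, ht, ht1, h2, _⟩ := onU_facts hU
  have ha : ja z - eb F ≠ 0 := sub_ne_zero.2 a1
  unfold jx
  exact div_ne_zero (mul_ne_zero (sub_ne_zero.2 da) g)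
    (mul_ne_zero (mul_ne_zero (pow_ne_zero 2 (jw_ne hU)) ha) hx)

/-- the relation is functional -/
theorem eq_of_jRel {z : F × F × F} {w δ α x' t' y' : F}
    (h : JRel (ea F) (eb F) z.1 z.2.1 z.2.2 w δ α x' t' y')
    (hU : OnU z) (hw1 : w ≠ 1) (hxd : z.1 ≠ δ) (ha : α - eb F ≠ 0) (hx' : x' ≠ 0) :
    w = jw z ∧ δ = jd z ∧ α = ja z ∧ x' = jx z ∧ t' = jt z ∧ (x', t', y') = jf z := by
  obtain ⟨hx, h1, ht, ht1, h2, _⟩ := onU_facts hU
  have ew : w = jw z := by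
    unfold jw
    rw [eq_div_iff (mul_ne_zero h1 h2)]
    exact h.hw
  have w0 : w ≠ 0 := by
    intro h0
    apply hU.2
    rw [← h.hw, h0, zero_mul]
  have w1 : 1 - w ≠ 0 := sub_ne_zero.2 hw1.symm
  have ed : δ = jd z := by
    unfold jd
    rw [← ew, eq_div_iff w1]
    exact h.hδ
  have ea' : α = ja z := by
    unfold ja
    rw [← ed, eq_div_iff (sub_ne_zero.2 hxd)]
    exact h.hα
  have ex : x' = jx z := by
    unfold jx
    rw [← ew, ← ed, ← ea', eq_div_iff (mul_ne_zero (mul_ne_zero (pow_ne_zero 2 w0) ha) hx)]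
    exact h.hx
  have et : t' = jt z := by
    unfold jt
    rw [← ed, ← ea', ← ex, ← sub_eq_iff_eq_add', eq_div_iff hx']
    exact h.ht
  refine ⟨ew, ed, ea', ex, et, ?_⟩
  unfold jf
  rw [← ew, ← ex, ← et, h.hy]

/-- the domain of `j` is stable and `j` is an involution on it -/
theorem jD_jf [Gd F] {z : F × F × F} (h : jD z) : jD (jf z) ∧ jf (jf z) = z := by
  have hr := jRel_of_jD h
  have hx0' := jx_ne h
  obtain ⟨hU, w1, xd, a1, da, g, xd', x1'⟩ := h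
  obtain ⟨hx, hx1, ht, ht1, ht2, _⟩ := onU_facts hU
  have hd0 := jd_ne hU w1
  have hw0 := jw_ne hU
  have hX' := onX_image hr hU.1 hx1 ht2 hx hd0 xd hx0'
  have hf' := fibre_image hr hU.1 hx1 ht2 hx hd0 xd hx0'
  have ht' : jt z - eb F ≠ 0 := by
    intro h0
    have ht0 : jt z = eb F := by linear_combination h0
    rw [ht0] at hf'
    have : jx z * eb F * (ea F - eb F) = 0 := by linear_combination hf'
    exact (mul_ne_zero (mul_ne_zero hx0' (eb_ne F)) (eab_ne F)) this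
  have hy' : (jf z).2.2 ≠ 0 := by
    rw [hr.hy]
    exact mul_ne_zero (mul_ne_zero hw0 x1') ht'
  have hU' : OnU (jf z) := ⟨hX', hy'⟩
  have hr' : JRel (ea F) (eb F) (jf z).1 (jf z).2.1 (jf z).2.2 (jw z) (jd z) (ja z)
      z.1 z.2.1 z.2.2 := hr.symm
  have ha : ja z - eb F ≠ 0 := sub_ne_zero.2 a1
  obtain ⟨ew, ed, ea', ex, et, ez⟩ := eq_of_jRel hr' hU' w1 xd' ha hx
  refine ⟨⟨hU', ?_, ?_, ?_, ?_, ?_, ?_, ?_⟩, ez.symm⟩
  · rw [← ew]; exact w1
  · rw [← ed]; exact xd'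
  · rw [← ea']; exact a1
  · rw [← ed, ← ea']; exact da
  · rw [← ed, ← ea', ← ew]; exact g
  · rw [← ex, ← ed]; exact xd
  · rw [← ex]
    exact hx1

theorem eaeb_ne (F : Type) [Field F] [Gd F] : ea F * eb F ≠ 0 := mul_ne_zero (ea_ne F) (eb_ne F)

theorem onU_t00f [Gd F] {z : F × F × F} (h : OnU z) : OnU (t00f z) := by
  obtain ⟨x, t, y⟩ := z
  obtain ⟨hx, hx1, ht, _⟩ := onU_facts h
  obtain ⟨h1, hy⟩ := h
  have ha := ea_ne F
  have hb := eb_ne F
  simp only [cub] at h1 hy hx hx1 ht ⊢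
  refine ⟨?_, ?_⟩
  · simp only [t00f, cub]
    have e : ∀ X : F, X ≠ 0 → (ea F * eb F / X) * (ea F * eb F / X - ea F) *
        (ea F * eb F / X - eb F) = (ea F * eb F) ^ 2 / X ^ 4 * (X * (X - ea F) * (X - eb F)) := by
      intro X hX
      field_simp
      ring
    rw [e x hx, e t ht, div_pow, mul_pow, h1]
    have hxt : x ^ 2 * t ^ 2 ≠ 0 := mul_ne_zero (pow_ne_zero 2 hx) (pow_ne_zero 2 ht)
    field_simp
  · simp only [t00f]
    exact div_ne_zero (mul_ne_zero (pow_ne_zero 2 (eaeb_ne F)) hy)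
      (mul_ne_zero (pow_ne_zero 2 hx) (pow_ne_zero 2 ht))

theorem t00f_t00f [Gd F] {z : F × F × F} (hx : z.1 ≠ 0) (ht : z.2.1 ≠ 0) :
    t00f (t00f z) = z := by
  obtain ⟨x, t, y⟩ := z
  have ha := ea_ne F
  have hb := eb_ne F
  simp only at hx ht
  simp only [t00f]
  refine Prod.ext ?_ (Prod.ext ?_ ?_)
  · simp only
    field_simp
  · simp only
    field_simp
  · simp only
    field_simp

/-- the domain of `J` is stable and `J` is an involution on it -/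
theorem JD_JJf [Gd F] {z : F × F × F} (hU : OnU z) (h : JD z) :
    JD (JJf z) ∧ JJf (JJf z) = z ∧ OnU (JJf z) := by
  unfold JD at h
  obtain ⟨h3, h4⟩ := jD_jf h
  have hU' := h3.1
  have f' := onU_facts hU'
  have f := onU_facts hU
  have e : t00f (JJf z) = jf (t00f z) := by
    unfold JJf
    exact t00f_t00f f'.1 f'.2.2.1
  refine ⟨?_, ?_, ?_⟩
  · unfold JD
    rw [e]
    exact h3
  · show t00f (jf (t00f (JJf z))) = z
    rw [e, h4]
    exact t00f_t00f f.1 f.2.2.1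
  · unfold JJf
    exact onU_t00f hU'

end Pool.Agent.WAQ.H90
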