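import Pool.Agent.WAQ.StmtsT
import Pool.Agent.Helper90_WAQ.JDen

/-! CNJ -/

namespace Pool.Agent.WAQ.H90

variable [Par]

theorem locSq_of_isLC {F : Type} [NormedField F] (h : IsLC F) : LocSq F := by
  rcases h with ⟨ϖ, h⟩ | h
  · exact locSq_of_isLoc h
  · exact locSq_of_isRe h

theorem cnj : CnjStmt := by
  intro F _ hF l z z' hl hs V hV hz
  have := (locSq_of_isLC hF).gd
  subst hl
  exact con_jj z z' hs V hV hz

end Pool.Agent.WAQ.H90
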