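import Pool.Agent.Helper90_WAQ.JBad

/-!
The product of all bad polynomials of `j` for fixed `t` is not zero.
-/

namespace Pool.Agent.Helper90_WAQ

open Polynomial

variable {F : Type*} [Field F]

noncomputable def MM (a b t : F) : F[X] := (X - C a) * (X - C b) * C (t - b)
noncomputable def NN (a t : F) : F[X] := X * C (t * (t - a))

noncomputable def P1 (a b t : F) : F[X] := MM a b t - NN a t
noncomputable def P2 (a b t : F) : F[X] := NN a t * (X - C b) ^ 2 - X ^ 2 * MM a b t
noncomputable def P3 (a b t : F) : F[X] :=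
  NN a t * MM a b t * (2 * X * (C b - C t) - C b ^ 2) ^ 2
    - X ^ 2 * (C b - C t) ^ 2 * (MM a b t + NN a t) ^ 2
noncomputable def P4 (a b t : F) : F[X] := NN a t * (C t - C b) ^ 2 - C t ^ 2 * MM a b t
noncomputable def P5 (a b t : F) : F[X] :=
  NN a t * (X * (C a + C t - C b) * MM a b t + C a * (X - C b) * NN a t) ^ 2
    - MM a b t * (X * C t * MM a b t + C a * (2 * X - C b) * NN a t) ^ 2
noncomputable def P6 (a b t : F) : F[X] :=
  (X * C t * (C a * MM a b t ^ 2 + (C a + 5 * (C a - C b)) * NN a t * MM a b t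
        + (C a - C b) * NN a t ^ 2)
      - C b ^ 2 * NN a t * (C a * MM a b t + (C a - C b) * NN a t)
      + 2 * C b ^ 2 * X * NN a t * MM a b t) ^ 2
    - NN a t * MM a b t * (2 * (C a + (C a - C b)) * X * C t * MM a b t
      + 4 * (C a - C b) * X * C t * NN a t
      - 2 * C b ^ 2 * (C a - C b) * NN a t + 2 * C b ^ 2 * (X - C b) * NN a t) ^ 2
noncomputable def P7a (a b t : F) : F[X] :=
  (X * C t * (C a * MM a b t + (C a - C b) * NN a t) + C b ^ 2 * (X - C a) * NN a t) ^ 2
    - (2 * C a - C b) ^ 2 * X ^ 2 * C t ^ 2 * (NN a t * MM a b t)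
noncomputable def P7b (a b t : F) : F[X] := (C a - C b) ^ 2 * NN a t - C a ^ 2 * MM a b t
noncomputable def P7e (a b t : F) : F[X] :=
  NN a t * (X * (C t - C a) - C b * (X - C a)) ^ 2 - X ^ 2 * (C t - C a) ^ 2 * MM a b t
noncomputable def P7c (a b t : F) : F[X] :=
  (X * C t * MM a b t + C b * (X - C b) * NN a t) ^ 2 - X ^ 2 * C t ^ 2 * (NN a t * MM a b t)
noncomputable def P7d (a b t : F) : F[X] :=
  (X * (C t - C a) * MM a b t - (C a - C b) * (X - C b) * NN a t) ^ 2
    - NN a t * MM a b t * (X * C t - 2 * C a * X + C a * C b) ^ 2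

/-- the product -/
noncomputable def PJ (a b t : F) : F[X] :=
  P1 a b t * P2 a b t * P3 a b t * P4 a b t * P5 a b t * P6 a b t * P7a a b t * P7b a b t *
    P7e a b t * P7c a b t * P7d a b t

theorem eval_MM (a b t x : F) : (MM a b t).eval x = (x - a) * (x - b) * (t - b) := by simp [MM]
theorem eval_NN (a t x : F) : (NN a t).eval x = x * (t * (t - a)) := by simp [NN]

theorem ne_of_eval {p : F[X]} (x : F) (h : p.eval x ≠ 0) : p ≠ 0 := by
  rintro rfl
  simp at h

theorem PJ_ne {a b : F} (ha : a ≠ 0) (hb : b ≠ 0) (hab : a ≠ b) {t : F} (h0 : t ≠ 0)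
    (h1 : t - a ≠ 0) (hm : t - b ≠ 0) : PJ a b t ≠ 0 := by
  have hc : a - b ≠ 0 := sub_ne_zero.2 hab
  have kn : a * (t * (t - a)) ≠ 0 := mul_ne_zero ha (mul_ne_zero h0 h1)
  have knb : b * (t * (t - a)) ≠ 0 := mul_ne_zero hb (mul_ne_zero h0 h1)
  have hM : (MM a b t).eval a = 0 := by rw [eval_MM]; ring
  have hMb : (MM a b t).eval b = 0 := by rw [eval_MM]; ring
  have hN : (NN a t).eval a = a * (t * (t - a)) := eval_NN a t a
  have hNb : (NN a t).eval b = b * (t * (t - a)) := eval_NN a t b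
  have hbt : b - t ≠ 0 := by
    intro h; apply hm; linear_combination (-1) * h
  have e1 : P1 a b t ≠ 0 := by
    refine ne_of_eval a ?_
    have : (P1 a b t).eval a = - (a * (t * (t - a))) := by
      simp only [P1, eval_sub, hM, hN]; ring
    rw [this]; exact neg_ne_zero.2 kn
  have e2 : P2 a b t ≠ 0 := by
    refine ne_of_eval a ?_
    have : (P2 a b t).eval a = (a * (t * (t - a))) * (a - b) ^ 2 := by
      simp only [P2, eval_sub, eval_mul, eval_pow, eval_X, eval_C, hM, hN]; ring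
    rw [this]; exact mul_ne_zero kn (pow_ne_zero 2 hc)
  have e3 : P3 a b t ≠ 0 := by
    refine ne_of_eval a ?_
    have : (P3 a b t).eval a = - (a ^ 2 * (b - t) ^ 2 * (a * (t * (t - a))) ^ 2) := by
      simp only [P3, eval_sub, eval_add, eval_mul, eval_pow, eval_X, eval_C, eval_ofNat, hM, hN]
      ring
    rw [this]
    exact neg_ne_zero.2 (mul_ne_zero (mul_ne_zero (pow_ne_zero 2 ha) (pow_ne_zero 2 hbt))
      (pow_ne_zero 2 kn))
  have e4 : P4 a b t ≠ 0 := by
    refine ne_of_eval a ?_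
    have : (P4 a b t).eval a = (a * (t * (t - a))) * (t - b) ^ 2 := by
      simp only [P4, eval_sub, eval_mul, eval_pow, eval_C, hM, hN]; ring
    rw [this]; exact mul_ne_zero kn (pow_ne_zero 2 hm)
  have e5 : P5 a b t ≠ 0 := by
    refine ne_of_eval a ?_
    have : (P5 a b t).eval a = (a * (t * (t - a))) * (a * (a - b) * (a * (t * (t - a)))) ^ 2 := by
      simp only [P5, eval_sub, eval_add, eval_mul, eval_pow, eval_X, eval_C, eval_ofNat, hM, hN]
      ring
    rw [this]
    exact mul_ne_zero kn (pow_ne_zero 2 (mul_ne_zero (mul_ne_zero ha hc) kn))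
  have e6 : P6 a b t ≠ 0 := by
    refine ne_of_eval b ?_
    have : (P6 a b t).eval b = ((a - b) * b * (t - b) * (b * (t * (t - a))) ^ 2) ^ 2 := by
      simp only [P6, eval_sub, eval_add, eval_mul, eval_pow, eval_X, eval_C, eval_ofNat, hMb, hNb]
      ring
    rw [this]
    exact pow_ne_zero 2 (mul_ne_zero (mul_ne_zero (mul_ne_zero hc hb) hm) (pow_ne_zero 2 knb))
  have e7a : P7a a b t ≠ 0 := by
    refine ne_of_eval a ?_
    have : (P7a a b t).eval a = (a * t * (a - b) * (a * (t * (t - a)))) ^ 2 := by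
      simp only [P7a, eval_sub, eval_add, eval_mul, eval_pow, eval_X, eval_C, eval_ofNat, hM, hN]
      ring
    rw [this]
    exact pow_ne_zero 2 (mul_ne_zero (mul_ne_zero (mul_ne_zero ha h0) hc) kn)
  have e7b : P7b a b t ≠ 0 := by
    refine ne_of_eval a ?_
    have : (P7b a b t).eval a = (a - b) ^ 2 * (a * (t * (t - a))) := by
      simp only [P7b, eval_sub, eval_mul, eval_pow, eval_C, hM, hN]; ring
    rw [this]; exact mul_ne_zero (pow_ne_zero 2 hc) kn
  have e7e : P7e a b t ≠ 0 := by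
    refine ne_of_eval a ?_
    have : (P7e a b t).eval a = (a * (t * (t - a))) * (a * (t - a)) ^ 2 := by
      simp only [P7e, eval_sub, eval_mul, eval_pow, eval_X, eval_C, hM, hN]; ring
    rw [this]; exact mul_ne_zero kn (pow_ne_zero 2 (mul_ne_zero ha h1))
  have e7c : P7c a b t ≠ 0 := by
    refine ne_of_eval a ?_
    have : (P7c a b t).eval a = (b * (a - b) * (a * (t * (t - a)))) ^ 2 := by
      simp only [P7c, eval_sub, eval_add, eval_mul, eval_pow, eval_X, eval_C, hM, hN]; ring
    rw [this]; exact pow_ne_zero 2 (mul_ne_zero (mul_ne_zero hb hc) kn)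
  have e7d : P7d a b t ≠ 0 := by
    refine ne_of_eval a ?_
    have : (P7d a b t).eval a = ((a - b) * (a - b) * (a * (t * (t - a)))) ^ 2 := by
      simp only [P7d, eval_sub, eval_add, eval_mul, eval_pow, eval_X, eval_C, eval_ofNat, hM, hN]
      ring
    rw [this]; exact pow_ne_zero 2 (mul_ne_zero (mul_ne_zero hc hc) kn)
  unfold PJ
  exact mul_ne_zero (mul_ne_zero (mul_ne_zero (mul_ne_zero (mul_ne_zero (mul_ne_zero
    (mul_ne_zero (mul_ne_zero (mul_ne_zero (mul_ne_zero e1 e2) e3) e4) e5) e6) e7a) e7b) e7e) e7c)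
    e7d

end Pool.Agent.Helper90_WAQ
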