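import Pool.Agent.WAQ.StmtsB
import Pool.Agent.Helper90_WAQ.Proj

/-! PRJ: from the open part to the smooth projective surface -/

set_option autoImplicit false

namespace Pool.Agent.WAQ.H90

variable [Par]

attribute [local instance] primesFact

/-- **PRJ**: the rational points of the smooth projective K3 surface `XP a b` are dense in the product
of its points over `Q_p`, `p ∈ S`, and over `R`. -/
def PrjStmt : Prop :=
  ∀ S : Set Nat.Primes, (∀ p ∈ S, GoodP (p : ℕ)) →
    DenseRange (fun z : XP Par.a Par.b ℚ =>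
      (((fun p : S => XP.map (algebraMap ℚ ℚ_[(p.1 : ℕ)]) z), XP.map (algebraMap ℚ ℝ) z) :
        (∀ p : S, XP Par.a Par.b ℚ_[(p.1 : ℕ)]) × XP Par.a Par.b ℝ))

omit [Par] in
theorem isRe_real : IsRe ℝ := ⟨RingEquiv.refl ℝ, fun _ => rfl⟩

theorem prj (blo : BloStmt) (bfi : BfiStmt) : PrjStmt := by
  intro S hS
  have h := bfi S hS
  have hloc : ∀ p : S, LocSq ℚ_[(p.1 : ℕ)] := fun p =>
    locSq_of_isLoc (blo (p.1 : ℕ) (hS p.1 p.2))
  have hre : LocSq ℝ := locSq_of_isRe isRe_real
  have d1 : DenseRange (Pi.map (fun p : S => XU.incl (F := ℚ_[(p.1 : ℕ)]))) :=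
    DenseRange.piMap (fun p => denseRange_incl (hloc p))
  have d2 := d1.prodMap (denseRange_incl hre)
  have hc : Continuous (Prod.map (Pi.map (fun p : S => XU.incl (F := ℚ_[(p.1 : ℕ)])))
      (XU.incl (F := ℝ))) :=
    (Continuous.piMap (fun p => cont_incl)).prodMap cont_incl
  have d3 := d2.comp h hc
  refine Dense.mono ?_ d3
  rintro _ ⟨z, rfl⟩
  refine ⟨XU.incl z, ?_⟩
  refine Prod.ext ?_ ?_
  · funext p
    exact XU_incl_map _ z
  · exact XU_incl_map _ z

end Pool.Agent.WAQ.H90
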